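import Mathlib

/-!
# Equal balls in the unit ball of `ℝ³` with no line meeting more than two of them

`rLine n` is the supremum of the radii `r > 0` for which there are `n` closed balls of radius `r`
inside the closed unit ball such that no line meets more than two of them.
We prove `n ^ (-5/6) / 16384 ≤ rLine n ≤ 3 * n ^ (-1/2)` for every `n ≥ 1`.

Lower bound: the centres lie on a piece of a paraboloid over the unit square. By its curvature
three of the small balls meet a line only if the middle centre `v` satisfies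
`|u - v| |v - w| ≤ 40 R` and lies within `2 R` of the segment `u w` (in the plane of parameters).
The parameter points are chosen greedily with mutual distance `δ ~ n ^ (-1/2)`; the area forbidden
by a pair at distance `x` is `O(R² / x + R³ / x³)` and vanishes for `x > 40 R / δ`, and the packing
sums of these bounds are `O(R³ / δ³)` for each point.
-/

namespace Pool.Agent.Results.MP_9b7bf4_co.LineBallBounds

open MeasureTheory Metric Set

/-- `n` closed balls of radius `r > 0`, each inside the closed unit ball of `ℝ³`, such that every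
line `{p + t • d}` (`d ≠ 0`) meets at most two of them. -/
def Good (n : ℕ) (r : ℝ) : Prop :=
  0 < r ∧ ∃ x : Fin n → EuclideanSpace ℝ (Fin 3), Function.Injective x ∧
    (∀ i, closedBall (x i) r ⊆ closedBall 0 1) ∧
    ∀ p d : EuclideanSpace ℝ (Fin 3), d ≠ 0 →
      {i : Fin n | ∃ t : ℝ, p + t • d ∈ closedBall (x i) r}.ncard ≤ 2

/-- the largest radius (supremum) -/
noncomputable def rLine (n : ℕ) : ℝ := sSup {r : ℝ | Good n r}

/-! ### Tubes in the plane -/

/-- tube around a segment, for the sup norm of `ℝ × ℝ` -/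
def Tube (a d : ℝ × ℝ) (T W : ℝ) : Set (ℝ × ℝ) :=
  {z | ∃ (l : ℝ) (f : ℝ × ℝ), 0 ≤ l ∧ l ≤ T ∧ ‖f‖ ≤ W ∧ z = a + l • d + f}

theorem vol_ball (c : ℝ × ℝ) (W : ℝ) (hW : 0 ≤ W) :
    volume (closedBall c W) = ENNReal.ofReal (4 * W ^ 2) := by
  obtain ⟨a, b⟩ := c
  rw [← closedBall_prod_same, Measure.volume_eq_prod, Measure.prod_prod, Real.volume_closedBall,
    Real.volume_closedBall, ← ENNReal.ofReal_mul (by positivity)]
  congr 1; ring

theorem vol_tube (a d : ℝ × ℝ) (T W : ℝ) (hT : 0 ≤ T) (hW : 0 < W) :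
    volume (Tube a d T W) ≤ ENNReal.ofReal (16 * W * (T * ‖d‖ + W)) := by
  set N : ℕ := ⌊T * ‖d‖ / W⌋₊ + 1 with hN
  have hsub : Tube a d T W ⊆ ⋃ k ∈ Finset.range N,
      closedBall (a + ((k : ℝ) * W / ‖d‖) • d) (2 * W) := by
    rintro z ⟨l, f, hl0, hlT, hf, rfl⟩
    have hk : ⌊l * ‖d‖ / W⌋₊ < N := by
      rw [hN, Nat.lt_succ_iff]
      exact Nat.floor_mono (by gcongr)
    simp only [mem_iUnion]
    refine ⟨⌊l * ‖d‖ / W⌋₊, Finset.mem_range.2 hk, ?_⟩
    rw [mem_closedBall, dist_eq_norm]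
    set k : ℝ := (⌊l * ‖d‖ / W⌋₊ : ℝ) with hkdef
    have h1 : k ≤ l * ‖d‖ / W := Nat.floor_le (by positivity)
    have h2 : l * ‖d‖ / W < k + 1 := Nat.lt_floor_add_one _
    rw [le_div_iff₀ hW] at h1
    rw [div_lt_iff₀ hW] at h2
    have e : a + l • d + f - (a + (k * W / ‖d‖) • d) = (l - k * W / ‖d‖) • d + f := by
      rw [sub_smul]; abel
    rw [e]
    have h3 : ‖(l - k * W / ‖d‖) • d‖ ≤ W := by
      rw [norm_smul, Real.norm_eq_abs]
      by_cases hd : ‖d‖ = 0
      · rw [hd, mul_zero]; exact hW.le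
      · have hd' : 0 < ‖d‖ := lt_of_le_of_ne (norm_nonneg _) (Ne.symm hd)
        rw [← abs_of_pos hd', ← abs_mul, abs_of_pos hd']
        have : (l - k * W / ‖d‖) * ‖d‖ = l * ‖d‖ - k * W := by field_simp
        rw [this, abs_le]
        constructor <;> nlinarith
    calc ‖(l - k * W / ‖d‖) • d + f‖ ≤ ‖(l - k * W / ‖d‖) • d‖ + ‖f‖ := norm_add_le _ _
      _ ≤ 2 * W := by linarith
  calc volume (Tube a d T W)
      ≤ volume (⋃ k ∈ Finset.range N, closedBall (a + ((k : ℝ) * W / ‖d‖) • d) (2 * W)) :=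
        measure_mono hsub
    _ ≤ ∑ k ∈ Finset.range N, volume (closedBall (a + ((k : ℝ) * W / ‖d‖) • d) (2 * W)) :=
        measure_biUnion_finset_le _ _
    _ = ∑ k ∈ Finset.range N, ENNReal.ofReal (16 * W ^ 2) := by
        apply Finset.sum_congr rfl
        intro k _
        rw [vol_ball _ _ (by positivity)]
        congr 1; ring
    _ = ENNReal.ofReal (N * (16 * W ^ 2)) := by
        rw [Finset.sum_const, Finset.card_range, nsmul_eq_mul,
          ENNReal.ofReal_mul (p := (N : ℝ)) (by positivity), ENNReal.ofReal_natCast]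
    _ ≤ ENNReal.ofReal (16 * W * (T * ‖d‖ + W)) := by
        apply ENNReal.ofReal_le_ofReal
        have h1 : (N : ℝ) ≤ T * ‖d‖ / W + 1 := by
          rw [hN]; push_cast
          have := Nat.floor_le (show 0 ≤ T * ‖d‖ / W by positivity)
          linarith
        calc (N : ℝ) * (16 * W ^ 2) ≤ (T * ‖d‖ / W + 1) * (16 * W ^ 2) := by gcongr
          _ = 16 * W * (T * ‖d‖ + W) := by field_simp

/-! ### Packing sums -/

/-- square index of `v` relative to `u`, plus one -/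
noncomputable def idx (δ : ℝ) (u v : ℝ × ℝ) : ℕ :=
  max (⌊(v.1 - u.1) / δ⌋.natAbs) (⌊(v.2 - u.2) / δ⌋.natAbs) + 1

theorem floor_bound (δ t : ℝ) (hδ : 0 < δ) :
    ((⌊t / δ⌋.natAbs : ℝ) - 1) * δ ≤ |t| := by
  have h1 : (⌊t / δ⌋ : ℝ) ≤ t / δ := Int.floor_le _
  have h2 : t / δ < ⌊t / δ⌋ + 1 := Int.lt_floor_add_one _
  rw [le_div_iff₀ hδ] at h1
  rw [div_lt_iff₀ hδ] at h2
  rw [Nat.cast_natAbs, Int.cast_abs]
  rcases le_total 0 (⌊t / δ⌋ : ℝ) with h | h
  · rw [abs_of_nonneg h]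
    calc ((⌊t / δ⌋ : ℝ) - 1) * δ ≤ (⌊t / δ⌋ : ℝ) * δ := by nlinarith
      _ ≤ t := h1
      _ ≤ |t| := le_abs_self t
  · rw [abs_of_nonpos h]
    calc (-(⌊t / δ⌋ : ℝ) - 1) * δ ≤ -t := by nlinarith
      _ ≤ |t| := neg_le_abs t

theorem idx_dist (δ : ℝ) (hδ : 0 < δ) (u v : ℝ × ℝ) (h : δ ≤ dist u v) :
    δ * (idx δ u v : ℝ) / 3 ≤ dist u v := by
  have h1 := floor_bound δ (v.1 - u.1) hδ
  have h2 := floor_bound δ (v.2 - u.2) hδ
  have e1 : |v.1 - u.1| ≤ dist u v := by
    rw [Prod.dist_eq, abs_sub_comm]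
    exact le_max_left _ _
  have e2 : |v.2 - u.2| ≤ dist u v := by
    rw [Prod.dist_eq, abs_sub_comm]
    exact le_max_right _ _
  unfold idx
  set A := ⌊(v.1 - u.1) / δ⌋.natAbs
  set B := ⌊(v.2 - u.2) / δ⌋.natAbs
  push_cast
  have h3 : (max (A : ℝ) B - 1) * δ ≤ dist u v := by
    rcases le_total (A : ℝ) B with hh | hh
    · rw [max_eq_right hh]; linarith
    · rw [max_eq_left hh]; linarith
  set M : ℝ := max (A : ℝ) B
  nlinarith

theorem idx_card (δ : ℝ) (hδ : 0 < δ) (F : Finset (ℝ × ℝ))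
    (hF : ∀ a ∈ F, ∀ b ∈ F, a ≠ b → δ ≤ dist a b) (u : ℝ × ℝ) (m : ℕ) :
    (F.filter (fun v => idx δ u v = m)).card ≤ 8 * m := by
  classical
  rcases Nat.eq_zero_or_pos m with hm | hm
  · subst hm
    have : F.filter (fun v => idx δ u v = 0) = ∅ := by
      apply Finset.filter_eq_empty_iff.2
      intro v _
      unfold idx; omega
    rw [this]; simp
  set M : ℤ := (m : ℤ) - 1 with hM
  set S : Finset (ℤ × ℤ) := (({M, -M} : Finset ℤ) ×ˢ Finset.Icc (-M) M) ∪
    (Finset.Icc (-M) M ×ˢ ({M, -M} : Finset ℤ)) with hS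
  have hcard : S.card ≤ 8 * m := by
    have h1 : ({M, -M} : Finset ℤ).card ≤ 2 := Finset.card_le_two
    have h2 : (Finset.Icc (-M) M).card = 2 * m - 1 := by
      rw [Int.card_Icc]; omega
    calc S.card ≤ (({M, -M} : Finset ℤ) ×ˢ Finset.Icc (-M) M).card +
          (Finset.Icc (-M) M ×ˢ ({M, -M} : Finset ℤ)).card := Finset.card_union_le _ _
      _ = ({M, -M} : Finset ℤ).card * (2 * m - 1) + (2 * m - 1) * ({M, -M} : Finset ℤ).card := by
          rw [Finset.card_product, Finset.card_product, h2]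
      _ ≤ 2 * (2 * m - 1) + (2 * m - 1) * 2 := by gcongr
      _ ≤ 8 * m := by omega
  refine le_trans (Finset.card_le_card_of_injOn
    (fun v => (⌊(v.1 - u.1) / δ⌋, ⌊(v.2 - u.2) / δ⌋)) ?_ ?_) hcard
  · intro v hv
    rw [Finset.mem_coe, Finset.mem_filter] at hv
    have hv2 := hv.2
    unfold idx at hv2
    rw [Finset.mem_coe, hS, Finset.mem_union, Finset.mem_product, Finset.mem_product]
    simp only [Finset.mem_insert, Finset.mem_singleton, Finset.mem_Icc]
    omega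
  · intro v hv w hw hvw
    rw [Finset.mem_coe, Finset.mem_filter] at hv hw
    by_contra hne
    have hd := hF v hv.1 w hw.1 hne
    simp only [Prod.mk.injEq] at hvw
    have key : ∀ s t : ℝ, ⌊s / δ⌋ = ⌊t / δ⌋ → |s - t| < δ := by
      intro s t hst
      have := Int.abs_sub_lt_one_of_floor_eq_floor hst
      rw [← sub_div, abs_div, abs_of_pos hδ, div_lt_one hδ] at this
      exact this
    have k1 := key _ _ hvw.1
    have k2 := key _ _ hvw.2
    have : dist v w < δ := by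
      rw [Prod.dist_eq, Real.dist_eq, Real.dist_eq]
      apply max_lt
      · have : v.1 - w.1 = v.1 - u.1 - (w.1 - u.1) := by ring
        rw [this]; exact k1
      · have : v.2 - w.2 = v.2 - u.2 - (w.2 - u.2) := by ring
        rw [this]; exact k2
    linarith

theorem sum_inv_sq (N : ℕ) : ∑ m ∈ Finset.Icc 1 N, 1 / (m : ℝ) ^ 2 ≤ 2 := by
  have h : ∀ N : ℕ, 1 ≤ N → ∑ m ∈ Finset.Icc 1 N, 1 / (m : ℝ) ^ 2 ≤ 2 - 1 / (N : ℝ) := by
    intro N hN
    induction N, hN using Nat.le_induction with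
    | base => norm_num
    | succ k hk ih =>
      rw [Finset.sum_Icc_succ_top (by omega)]
      have hk' : (0 : ℝ) < k := by exact_mod_cast hk
      have : 1 / ((k + 1 : ℕ) : ℝ) ^ 2 ≤ 1 / k - 1 / ((k + 1 : ℕ) : ℝ) := by
        push_cast
        rw [div_sub_div _ _ hk'.ne' (by positivity), div_le_div_iff₀ (by positivity) (by positivity)]
        nlinarith
      linarith
  rcases Nat.eq_zero_or_pos N with h0 | h0
  · subst h0; norm_num
  · have := h N h0
    have : (0 : ℝ) ≤ 1 / (N : ℝ) := by positivity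
    linarith [h N h0]

/-- packing sum: `∑ 1/dist ≤ 72 ρ / δ²` over the points at distance at most `ρ` -/
theorem pack_one (δ ρ : ℝ) (hδ : 0 < δ) (hρ : 0 ≤ ρ) (F : Finset (ℝ × ℝ))
    (hF : ∀ a ∈ F, ∀ b ∈ F, a ≠ b → δ ≤ dist a b) (u : ℝ × ℝ) (S : Finset (ℝ × ℝ)) (hSF : S ⊆ F)
    (hS : ∀ v ∈ S, δ ≤ dist u v ∧ dist u v ≤ ρ) :
    ∑ v ∈ S, 1 / dist u v ≤ 72 * ρ / δ ^ 2 := by
  classical
  set N : ℕ := ⌊3 * ρ / δ⌋₊
  have hidx : ∀ v ∈ S, idx δ u v ∈ Finset.Icc 1 N := by
    intro v hv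
    rw [Finset.mem_Icc]
    refine ⟨by unfold idx; omega, Nat.le_floor ?_⟩
    have := idx_dist δ hδ u v (hS v hv).1
    rw [le_div_iff₀ hδ]
    linarith [(hS v hv).2]
  calc ∑ v ∈ S, 1 / dist u v ≤ ∑ v ∈ S, 3 / (δ * (idx δ u v : ℝ)) := by
        apply Finset.sum_le_sum
        intro v hv
        have h1 := idx_dist δ hδ u v (hS v hv).1
        have h2 : (0 : ℝ) < idx δ u v := by
          have : 0 < idx δ u v := by unfold idx; omega
          exact_mod_cast this
        have h3 : 0 < dist u v := lt_of_lt_of_le hδ (hS v hv).1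
        rw [div_le_div_iff₀ h3 (by positivity)]
        linarith
    _ = ∑ m ∈ S.image (idx δ u), (S.filter (fun v => idx δ u v = m)).card • (3 / (δ * (m : ℝ))) :=
        Finset.sum_comp (fun m : ℕ => 3 / (δ * (m : ℝ))) (idx δ u)
    _ ≤ ∑ m ∈ S.image (idx δ u), 24 / δ := by
        apply Finset.sum_le_sum
        intro m hm
        obtain ⟨v, hv, rfl⟩ := Finset.mem_image.1 hm
        have h2 : (0 : ℝ) < idx δ u v := by
          have : 0 < idx δ u v := by unfold idx; omega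
          exact_mod_cast this
        set m := idx δ u v
        have hc : ((S.filter (fun v => idx δ u v = m)).card : ℝ) ≤ 8 * m := by
          have : (S.filter (fun v => idx δ u v = m)).card ≤ 8 * m :=
            le_trans (Finset.card_le_card (Finset.filter_subset_filter _ hSF))
              (idx_card δ hδ F hF u m)
          exact_mod_cast this
        rw [nsmul_eq_mul]
        calc ((S.filter (fun v => idx δ u v = m)).card : ℝ) * (3 / (δ * (m : ℝ)))
            ≤ (8 * m) * (3 / (δ * (m : ℝ))) := by gcongr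
          _ = 24 / δ := by field_simp; norm_num
    _ ≤ ∑ m ∈ Finset.Icc 1 N, 24 / δ := by
        apply Finset.sum_le_sum_of_subset_of_nonneg
        · intro m hm
          obtain ⟨v, hv, rfl⟩ := Finset.mem_image.1 hm
          exact hidx v hv
        · intros; positivity
    _ = N * (24 / δ) := by rw [Finset.sum_const, nsmul_eq_mul, Nat.card_Icc]; simp
    _ ≤ (3 * ρ / δ) * (24 / δ) := by
        gcongr
        exact Nat.floor_le (by positivity)
    _ = 72 * ρ / δ ^ 2 := by field_simp; ring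

/-- packing sum: `∑ 1/dist³ ≤ 432 / δ³` -/
theorem pack_three (δ : ℝ) (hδ : 0 < δ) (F : Finset (ℝ × ℝ))
    (hF : ∀ a ∈ F, ∀ b ∈ F, a ≠ b → δ ≤ dist a b) (u : ℝ × ℝ) (S : Finset (ℝ × ℝ)) (hSF : S ⊆ F)
    (hS : ∀ v ∈ S, δ ≤ dist u v) :
    ∑ v ∈ S, 1 / dist u v ^ 3 ≤ 432 / δ ^ 3 := by
  classical
  obtain ⟨N, hN⟩ : ∃ N : ℕ, ∀ v ∈ S, idx δ u v ∈ Finset.Icc 1 N := by
    refine ⟨S.sup (idx δ u), fun v hv => ?_⟩
    rw [Finset.mem_Icc]
    exact ⟨by unfold idx; omega, Finset.le_sup (f := idx δ u) hv⟩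
  calc ∑ v ∈ S, 1 / dist u v ^ 3 ≤ ∑ v ∈ S, 27 / (δ ^ 3 * (idx δ u v : ℝ) ^ 3) := by
        apply Finset.sum_le_sum
        intro v hv
        have h1 := idx_dist δ hδ u v (hS v hv)
        have h2 : (0 : ℝ) < idx δ u v := by
          have : 0 < idx δ u v := by unfold idx; omega
          exact_mod_cast this
        have h3 : 0 < dist u v := lt_of_lt_of_le hδ (hS v hv)
        rw [div_le_div_iff₀ (by positivity) (by positivity)]
        have h4 : (δ * (idx δ u v : ℝ) / 3) ^ 3 ≤ dist u v ^ 3 := by gcongr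
        nlinarith
    _ = ∑ m ∈ S.image (idx δ u), (S.filter (fun v => idx δ u v = m)).card •
          (27 / (δ ^ 3 * (m : ℝ) ^ 3)) :=
        Finset.sum_comp (fun m : ℕ => 27 / (δ ^ 3 * (m : ℝ) ^ 3)) (idx δ u)
    _ ≤ ∑ m ∈ S.image (idx δ u), 216 / δ ^ 3 * (1 / (m : ℝ) ^ 2) := by
        apply Finset.sum_le_sum
        intro m hm
        obtain ⟨v, hv, rfl⟩ := Finset.mem_image.1 hm
        have h2 : (0 : ℝ) < idx δ u v := by
          have : 0 < idx δ u v := by unfold idx; omega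
          exact_mod_cast this
        set m := idx δ u v
        have hc : ((S.filter (fun v => idx δ u v = m)).card : ℝ) ≤ 8 * m := by
          have : (S.filter (fun v => idx δ u v = m)).card ≤ 8 * m :=
            le_trans (Finset.card_le_card (Finset.filter_subset_filter _ hSF))
              (idx_card δ hδ F hF u m)
          exact_mod_cast this
        rw [nsmul_eq_mul]
        calc ((S.filter (fun v => idx δ u v = m)).card : ℝ) * (27 / (δ ^ 3 * (m : ℝ) ^ 3))
            ≤ (8 * m) * (27 / (δ ^ 3 * (m : ℝ) ^ 3)) := by gcongr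
          _ = 216 / δ ^ 3 * (1 / (m : ℝ) ^ 2) := by field_simp; norm_num
    _ ≤ ∑ m ∈ Finset.Icc 1 N, 216 / δ ^ 3 * (1 / (m : ℝ) ^ 2) := by
        apply Finset.sum_le_sum_of_subset_of_nonneg
        · intro m hm
          obtain ⟨v, hv, rfl⟩ := Finset.mem_image.1 hm
          exact hN v hv
        · intros; positivity
    _ = 216 / δ ^ 3 * ∑ m ∈ Finset.Icc 1 N, (1 / (m : ℝ) ^ 2) := by rw [Finset.mul_sum]
    _ ≤ 216 / δ ^ 3 * 2 := by
        gcongr
        exact sum_inv_sq N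
    _ = 432 / δ ^ 3 := by ring

/-! ### Nearly collinear triples on the paraboloid -/

/-- squared length -/
def q (u : ℝ × ℝ) : ℝ := u.1 ^ 2 + u.2 ^ 2

/-- the point of the paraboloid over `v` is close to the segment between those over `u`, `w` -/
def Mid (R : ℝ) (u v w : ℝ × ℝ) : Prop :=
  ∃ s : ℝ, 0 ≤ s ∧ s ≤ 1 ∧ ‖v - ((1 - s) • u + s • w)‖ ≤ 2 * R ∧
    |q v - ((1 - s) * q u + s * q w)| ≤ 2 * R

theorem Mid.symm {R : ℝ} {u v w : ℝ × ℝ} (h : Mid R u v w) : Mid R w v u := by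
  obtain ⟨s, h0, h1, h2, h3⟩ := h
  refine ⟨1 - s, by linarith, by linarith, ?_, ?_⟩
  · have : v - ((1 - (1 - s)) • w + (1 - s) • u) = v - ((1 - s) • u + s • w) := by
      rw [sub_sub_cancel, add_comm]
    rw [this]; exact h2
  · have : q v - ((1 - (1 - s)) * q w + (1 - s) * q u) = q v - ((1 - s) * q u + s * q w) := by
      ring
    rw [this]; exact h3

theorem mid_quad {R s : ℝ} {u v w : ℝ × ℝ} (_hR : 0 ≤ R) (h0 : 0 ≤ s) (h1 : s ≤ 1)
    (h2 : ‖v - ((1 - s) • u + s • w)‖ ≤ 2 * R)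
    (h3 : |q v - ((1 - s) * q u + s * q w)| ≤ 2 * R)
    (hv1 : |v.1| ≤ 1) (hv2 : |v.2| ≤ 1) : s * (1 - s) * ‖w - u‖ ^ 2 ≤ 10 * R := by
  have e1 : |v.1 - ((1 - s) * u.1 + s * w.1)| ≤ 2 * R := by
    have := le_trans (le_max_left _ _) h2
    simpa [Prod.norm_def] using this
  have e2 : |v.2 - ((1 - s) * u.2 + s * w.2)| ≤ 2 * R := by
    have := le_trans (le_max_right _ _) h2
    simpa [Prod.norm_def] using this
  have hD : ‖w - u‖ ^ 2 ≤ (w.1 - u.1) ^ 2 + (w.2 - u.2) ^ 2 := by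
    have : ‖w - u‖ = max |w.1 - u.1| |w.2 - u.2| := rfl
    rw [this]
    rcases le_total |w.1 - u.1| |w.2 - u.2| with h | h
    · rw [max_eq_right h, sq_abs]; nlinarith [sq_nonneg (w.1 - u.1)]
    · rw [max_eq_left h, sq_abs]; nlinarith [sq_nonneg (w.2 - u.2)]
  unfold q at h3
  set a := v.1 - ((1 - s) * u.1 + s * w.1) with ha
  set b := v.2 - ((1 - s) * u.2 + s * w.2) with hb
  have key : s * (1 - s) * ((w.1 - u.1) ^ 2 + (w.2 - u.2) ^ 2) =
      -(v.1 ^ 2 + v.2 ^ 2 - ((1 - s) * (u.1 ^ 2 + u.2 ^ 2) + s * (w.1 ^ 2 + w.2 ^ 2)))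
      + 2 * (v.1 * a) - a ^ 2 + 2 * (v.2 * b) - b ^ 2 := by
    rw [ha, hb]; ring
  have k1 : v.1 * a ≤ 2 * R := by
    calc v.1 * a ≤ |v.1 * a| := le_abs_self _
      _ = |v.1| * |a| := abs_mul _ _
      _ ≤ 1 * (2 * R) := mul_le_mul hv1 e1 (abs_nonneg _) (by norm_num)
      _ = 2 * R := one_mul _
  have k2 : v.2 * b ≤ 2 * R := by
    calc v.2 * b ≤ |v.2 * b| := le_abs_self _
      _ = |v.2| * |b| := abs_mul _ _
      _ ≤ 1 * (2 * R) := mul_le_mul hv2 e2 (abs_nonneg _) (by norm_num)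
      _ = 2 * R := one_mul _
  have k3 := (abs_le.1 h3).1
  have hs : 0 ≤ s * (1 - s) := mul_nonneg h0 (by linarith)
  calc s * (1 - s) * ‖w - u‖ ^ 2 ≤ s * (1 - s) * ((w.1 - u.1) ^ 2 + (w.2 - u.2) ^ 2) :=
        mul_le_mul_of_nonneg_left hD hs
    _ ≤ 10 * R := by rw [key]; nlinarith [sq_nonneg a, sq_nonneg b]

/-- the new point is an end of a nearly collinear triple -/
theorem outer {R δ : ℝ} {u v w : ℝ × ℝ} (hR : 0 < R) (hδ : 4 * R ≤ δ) (h : Mid R u v w)
    (hv1 : |v.1| ≤ 1) (hv2 : |v.2| ≤ 1) (huv : δ ≤ dist u v) (hvw : δ ≤ dist v w) :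
    w ∈ Tube v (v - u) (120 * R / dist u v ^ 2) (4 * R + 160 * R ^ 2 / dist u v ^ 2) ∧
      dist u v ≤ 40 * R / δ := by
  obtain ⟨s, h0, h1, h2, h3⟩ := h
  have hq := mid_quad hR.le h0 h1 h2 h3 hv1 hv2
  set x := dist u v with hx
  set y := dist v w with hy
  set D := ‖w - u‖ with hD
  set e := v - ((1 - s) • u + s • w) with he
  have hδ0 : 0 < δ := by linarith
  have hx0 : 0 < x := by linarith
  have hy0 : 0 < y := by linarith
  have hxn : ‖v - u‖ = x := by rw [hx, dist_eq_norm, norm_sub_rev]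
  have hyn : ‖w - v‖ = y := by rw [hy, dist_eq_norm, norm_sub_rev]
  have hDle : D ≤ x + y := by
    have : w - u = (v - u) + (w - v) := by abel
    rw [hD, this]
    exact le_trans (norm_add_le _ _) (by rw [hxn, hyn])
  have hD0 : 0 ≤ D := norm_nonneg _
  have a1 : x / 2 ≤ s * D := by
    have e1 : s • (w - u) = (v - u) - e := by rw [he]; module
    have e2 : s * D = ‖(v - u) - e‖ := by
      rw [← e1, norm_smul, Real.norm_eq_abs, abs_of_nonneg h0]
    have e3 : ‖v - u‖ - ‖e‖ ≤ ‖(v - u) - e‖ := norm_sub_norm_le _ _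
    rw [e2]; rw [hxn] at e3; linarith
  have a2 : y / 2 ≤ (1 - s) * D ∧ (1 - s) * D ≤ 3 * y / 2 := by
    have e1 : (1 - s) • (w - u) = (w - v) + e := by rw [he]; module
    have e2 : (1 - s) * D = ‖(w - v) + e‖ := by
      rw [← e1, norm_smul, Real.norm_eq_abs, abs_of_nonneg (by linarith)]
    have e3 : ‖w - v‖ ≤ ‖(w - v) + e‖ + ‖e‖ := by
      have := norm_sub_le ((w - v) + e) e
      rwa [add_sub_cancel_right] at this
    have e4 : ‖(w - v) + e‖ ≤ ‖w - v‖ + ‖e‖ := norm_add_le _ _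
    rw [e2]; rw [hyn] at e3 e4
    constructor <;> linarith
  have hs0 : 0 < s := by
    rcases eq_or_lt_of_le h0 with h | h
    · rw [← h, zero_mul] at a1; linarith
    · exact h
  have hDpos : 0 < D := by
    rcases eq_or_lt_of_le hD0 with h | h
    · rw [← h, mul_zero] at a1; linarith
    · exact h
  have hxy : x * y ≤ 40 * R := by
    have : (x / 2) * (y / 2) ≤ (s * D) * ((1 - s) * D) :=
      mul_le_mul a1 a2.1 (by positivity) (by positivity)
    nlinarith
  have hyx : y ≤ 40 * R / x := by rw [le_div_iff₀ hx0]; linarith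
  constructor
  · refine ⟨(1 - s) / s, -((1 / s) • e), div_nonneg (by linarith) h0, ?_, ?_, ?_⟩
    · have h4 : (1 - s) / s = ((1 - s) * D) / (s * D) := by field_simp
      rw [h4]
      calc ((1 - s) * D) / (s * D) ≤ (3 * y / 2) / (x / 2) := by
            apply div_le_div₀ (by positivity) a2.2 (by positivity) a1
        _ = 3 * y / x := by field_simp
        _ ≤ 3 * (40 * R / x) / x := by gcongr
        _ = 120 * R / x ^ 2 := by field_simp; ring
    · rw [norm_neg, norm_smul, Real.norm_eq_abs, abs_of_nonneg (by positivity)]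
      have h5 : 1 / s ≤ 2 * (x + y) / x := by
        rw [div_le_div_iff₀ hs0 hx0]
        nlinarith
      calc 1 / s * ‖e‖ ≤ (2 * (x + y) / x) * (2 * R) := by
            apply mul_le_mul h5 h2 (norm_nonneg _) (by positivity)
        _ = 4 * R + 4 * R * y / x := by field_simp; ring
        _ ≤ 4 * R + 4 * R * (40 * R / x) / x := by gcongr
        _ = 4 * R + 160 * R ^ 2 / x ^ 2 := by field_simp; ring
    · rw [he]
      apply Prod.ext
      · simp only [Prod.fst_add, Prod.fst_sub, Prod.smul_fst, Prod.fst_neg, smul_eq_mul]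
        field_simp
        ring
      · simp only [Prod.snd_add, Prod.snd_sub, Prod.smul_snd, Prod.snd_neg, smul_eq_mul]
        field_simp
        ring
  · rw [le_div_iff₀ hδ0]; nlinarith

/-- the new point is the middle of a nearly collinear triple -/
theorem middle {R δ : ℝ} {u z w : ℝ × ℝ} (hR : 0 < R) (hδ : 4 * R ≤ δ) (h : Mid R u z w)
    (hv1 : |z.1| ≤ 1) (hv2 : |z.2| ≤ 1) (huz : δ ≤ dist z u) (hzw : δ ≤ dist z w)
    (huw : δ ≤ dist u w) :
    (z ∈ Tube u (w - u) (20 * R / dist u w ^ 2) (2 * R) ∨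
      z ∈ Tube w (u - w) (20 * R / dist u w ^ 2) (2 * R)) ∧ dist u w ≤ 40 * R / δ := by
  obtain ⟨s, h0, h1, h2, h3⟩ := h
  have hq := mid_quad hR.le h0 h1 h2 h3 hv1 hv2
  have hDn : ‖w - u‖ = dist u w := by rw [dist_eq_norm, norm_sub_rev]
  rw [hDn] at hq
  set D := dist u w with hD
  have hδ0 : 0 < δ := by linarith
  have hD0 : 0 < D := by linarith
  set e := z - ((1 - s) • u + s • w) with he
  rcases le_total s (1 / 2) with hs | hs
  · have h4 : s * D ^ 2 ≤ 20 * R := by nlinarith [mul_nonneg h0 (sq_nonneg D)]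
    have h5 : s ≤ 20 * R / D ^ 2 := by rw [le_div_iff₀ (by positivity)]; exact h4
    refine ⟨Or.inl ⟨s, e, h0, h5, h2, by rw [he]; module⟩, ?_⟩
    have h6 : dist z u ≤ s * D + 2 * R := by
      rw [dist_eq_norm]
      have : z - u = s • (w - u) + e := by rw [he]; module
      rw [this]
      refine le_trans (norm_add_le _ _) ?_
      rw [norm_smul, Real.norm_eq_abs, abs_of_nonneg h0, hDn]
      linarith
    rw [le_div_iff₀ hδ0]
    have h7 : s * D ≥ δ / 2 := by linarith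
    nlinarith
  · have h4 : (1 - s) * D ^ 2 ≤ 20 * R := by
      nlinarith [mul_nonneg (show 0 ≤ 1 - s by linarith) (sq_nonneg D)]
    have h5 : (1 - s) ≤ 20 * R / D ^ 2 := by rw [le_div_iff₀ (by positivity)]; exact h4
    refine ⟨Or.inr ⟨1 - s, e, by linarith, h5, h2, by rw [he]; module⟩, ?_⟩
    have h6 : dist z w ≤ (1 - s) * D + 2 * R := by
      rw [dist_eq_norm]
      have : z - w = (1 - s) • (u - w) + e := by rw [he]; module
      rw [this]
      refine le_trans (norm_add_le _ _) ?_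
      rw [norm_smul, Real.norm_eq_abs, abs_of_nonneg (by linarith), norm_sub_rev, hDn]
      linarith
    rw [le_div_iff₀ hδ0]
    have h7 : (1 - s) * D ≥ δ / 2 := by linarith
    nlinarith

/-! ### The greedy step -/

/-- points that would be bad together with `u`, `v` -/
def BadPair (R : ℝ) (u v : ℝ × ℝ) : Set (ℝ × ℝ) :=
  Tube v (v - u) (120 * R / dist u v ^ 2) (4 * R + 160 * R ^ 2 / dist u v ^ 2) ∪
    Tube u (v - u) (20 * R / dist u v ^ 2) (2 * R)

theorem vol_badPair {R δ : ℝ} {u v : ℝ × ℝ} (hR : 0 < R) (hδ : 4 * R ≤ δ) (h : δ ≤ dist u v)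
    (h1 : dist u v ≤ 1) : volume (BadPair R u v) ≤
      ENNReal.ofReal (11200 * R ^ 2 * (1 / dist u v) + 419840 * R ^ 3 * (1 / dist u v ^ 3)) := by
  have hxn : ‖v - u‖ = dist u v := by rw [dist_eq_norm, norm_sub_rev]
  have hx0 : 0 < dist u v := by linarith
  have hW : 0 < 4 * R + 160 * R ^ 2 / dist u v ^ 2 := by positivity
  have t1 := vol_tube v (v - u) (120 * R / dist u v ^ 2) (4 * R + 160 * R ^ 2 / dist u v ^ 2)
    (by positivity) hW
  have t2 := vol_tube u (v - u) (20 * R / dist u v ^ 2) (2 * R) (by positivity) (by positivity)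
  rw [hxn] at t1 t2
  set x := dist u v with hxdef
  have hRx : R / x ≤ 1 / 4 := by rw [div_le_iff₀ hx0]; linarith
  have hxx : 1 ≤ 1 / x := by rw [le_div_iff₀ hx0]; linarith
  have hix : 0 < 1 / x := by positivity
  have e1 : 16 * (4 * R + 160 * R ^ 2 / x ^ 2) *
      (120 * R / x ^ 2 * x + (4 * R + 160 * R ^ 2 / x ^ 2)) ≤
      10496 * R ^ 2 * (1 / x) + 419840 * R ^ 3 * (1 / x ^ 3) := by
    have f1 : 120 * R / x ^ 2 * x = 120 * R * (1 / x) := by field_simp
    have f2 : 160 * R ^ 2 / x ^ 2 ≤ 40 * R * (1 / x) := by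
      have : 160 * R ^ 2 / x ^ 2 = 160 * (R * (1 / x)) * (R / x) := by field_simp
      rw [this]
      have : 0 < R * (1 / x) := by positivity
      nlinarith
    have f3 : 4 * R ≤ 4 * R * (1 / x) := by nlinarith
    have f4 : 120 * R / x ^ 2 * x + (4 * R + 160 * R ^ 2 / x ^ 2) ≤ 164 * R * (1 / x) := by
      rw [f1]; linarith
    calc 16 * (4 * R + 160 * R ^ 2 / x ^ 2) *
          (120 * R / x ^ 2 * x + (4 * R + 160 * R ^ 2 / x ^ 2))
        ≤ 16 * (4 * R + 160 * R ^ 2 / x ^ 2) * (164 * R * (1 / x)) := by gcongr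
      _ = 10496 * R ^ 2 * (1 / x) + 419840 * R ^ 3 * (1 / x ^ 3) := by field_simp; ring
  have e2 : 16 * (2 * R) * (20 * R / x ^ 2 * x + 2 * R) ≤ 704 * R ^ 2 * (1 / x) := by
    have f1 : 20 * R / x ^ 2 * x = 20 * R * (1 / x) := by field_simp
    rw [f1]
    nlinarith [mul_pos hR hR]
  calc volume (BadPair R u v)
      ≤ volume (Tube v (v - u) (120 * R / x ^ 2) (4 * R + 160 * R ^ 2 / x ^ 2)) +
        volume (Tube u (v - u) (20 * R / x ^ 2) (2 * R)) := measure_union_le _ _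
    _ ≤ ENNReal.ofReal (10496 * R ^ 2 * (1 / x) + 419840 * R ^ 3 * (1 / x ^ 3)) +
        ENNReal.ofReal (704 * R ^ 2 * (1 / x)) :=
        add_le_add (le_trans t1 (ENNReal.ofReal_le_ofReal e1))
          (le_trans t2 (ENNReal.ofReal_le_ofReal e2))
    _ = ENNReal.ofReal (11200 * R ^ 2 * (1 / x) + 419840 * R ^ 3 * (1 / x ^ 3)) := by
        rw [← ENNReal.ofReal_add (by positivity) (by positivity)]
        congr 1; ring

/-- the unit square -/
def Sq : Set (ℝ × ℝ) := Icc 0 1 ×ˢ Icc 0 1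

theorem vol_Sq : volume Sq = 1 := by
  unfold Sq
  rw [Measure.volume_eq_prod, Measure.prod_prod, Real.volume_Icc]
  norm_num

theorem Sq_dist {u v : ℝ × ℝ} (hu : u ∈ Sq) (hv : v ∈ Sq) : dist u v ≤ 1 := by
  rw [Prod.dist_eq, Real.dist_eq, Real.dist_eq]
  obtain ⟨⟨a, b⟩, c, d⟩ := hu
  obtain ⟨⟨a', b'⟩, c', d'⟩ := hv
  apply max_le <;> rw [abs_le] <;> constructor <;> linarith

theorem step {R δ : ℝ} (hR : 0 < R) (hδ : 4 * R ≤ δ) (F : Finset (ℝ × ℝ))
    (hSq : ∀ u ∈ F, u ∈ Sq) (hF : ∀ a ∈ F, ∀ b ∈ F, a ≠ b → δ ≤ dist a b)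
    (hsmall : (F.card : ℝ) * (4 * δ ^ 2 + 213626880 * R ^ 3 / δ ^ 3) < 1) :
    ∃ z ∈ Sq, (∀ u ∈ F, δ ≤ dist z u) ∧
      ∀ u ∈ F, ∀ v ∈ F, u ≠ v → dist u v ≤ 40 * R / δ → z ∉ BadPair R u v := by
  classical
  have hδ0 : 0 < δ := by linarith
  by_contra hcon
  push Not at hcon
  set S : ℝ × ℝ → Finset (ℝ × ℝ) := fun u => F.filter (fun v => u ≠ v ∧ dist u v ≤ 40 * R / δ)
    with hS
  have hsub : Sq ⊆ ⋃ u ∈ F, (closedBall u δ ∪ ⋃ v ∈ S u, BadPair R u v) := by
    intro z hz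
    simp only [mem_iUnion, mem_union]
    by_cases h1 : ∀ u ∈ F, δ ≤ dist z u
    · obtain ⟨u, hu, v, hv, huv, hd, hb⟩ := hcon z hz h1
      exact ⟨u, hu, Or.inr ⟨v, Finset.mem_filter.2 ⟨hv, huv, hd⟩, hb⟩⟩
    · push Not at h1
      obtain ⟨u, hu, hlt⟩ := h1
      exact ⟨u, hu, Or.inl (mem_closedBall.2 hlt.le)⟩
  have hpair : ∀ u ∈ F, volume (⋃ v ∈ S u, BadPair R u v) ≤
      ENNReal.ofReal (213626880 * R ^ 3 / δ ^ 3) := by
    intro u hu
    have hSF : S u ⊆ F := Finset.filter_subset _ _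
    have hd : ∀ v ∈ S u, δ ≤ dist u v ∧ dist u v ≤ 40 * R / δ := by
      intro v hv
      have := (Finset.mem_filter.1 hv)
      exact ⟨hF u hu v this.1 this.2.1, this.2.2⟩
    calc volume (⋃ v ∈ S u, BadPair R u v) ≤ ∑ v ∈ S u, volume (BadPair R u v) :=
          measure_biUnion_finset_le _ _
      _ ≤ ∑ v ∈ S u, ENNReal.ofReal
            (11200 * R ^ 2 * (1 / dist u v) + 419840 * R ^ 3 * (1 / dist u v ^ 3)) := by
          apply Finset.sum_le_sum
          intro v hv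
          exact vol_badPair hR hδ (hd v hv).1 (Sq_dist (hSq u hu) (hSq v (hSF hv)))
      _ = ENNReal.ofReal (∑ v ∈ S u,
            (11200 * R ^ 2 * (1 / dist u v) + 419840 * R ^ 3 * (1 / dist u v ^ 3))) := by
          rw [ENNReal.ofReal_sum_of_nonneg]
          intros; positivity
      _ ≤ ENNReal.ofReal (213626880 * R ^ 3 / δ ^ 3) := by
          apply ENNReal.ofReal_le_ofReal
          rw [Finset.sum_add_distrib, ← Finset.mul_sum, ← Finset.mul_sum]
          have p1 := pack_one δ (40 * R / δ) hδ0 (by positivity) F hF u (S u) hSF hd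
          have p3 := pack_three δ hδ0 F hF u (S u) hSF (fun v hv => (hd v hv).1)
          calc 11200 * R ^ 2 * (∑ v ∈ S u, 1 / dist u v) +
                419840 * R ^ 3 * (∑ v ∈ S u, 1 / dist u v ^ 3)
              ≤ 11200 * R ^ 2 * (72 * (40 * R / δ) / δ ^ 2) +
                419840 * R ^ 3 * (432 / δ ^ 3) := by gcongr
            _ = 213626880 * R ^ 3 / δ ^ 3 := by field_simp; ring
  have hvol : volume Sq ≤ ENNReal.ofReal
      ((F.card : ℝ) * (4 * δ ^ 2 + 213626880 * R ^ 3 / δ ^ 3)) := by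
    calc volume Sq ≤ volume (⋃ u ∈ F, (closedBall u δ ∪ ⋃ v ∈ S u, BadPair R u v)) :=
          measure_mono hsub
      _ ≤ ∑ u ∈ F, volume (closedBall u δ ∪ ⋃ v ∈ S u, BadPair R u v) :=
          measure_biUnion_finset_le _ _
      _ ≤ ∑ u ∈ F, ENNReal.ofReal (4 * δ ^ 2 + 213626880 * R ^ 3 / δ ^ 3) := by
          apply Finset.sum_le_sum
          intro u hu
          refine le_trans (measure_union_le _ _) ?_
          rw [ENNReal.ofReal_add (by positivity) (by positivity)]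
          exact add_le_add (vol_ball u δ hδ0.le).le (hpair u hu)
      _ = ENNReal.ofReal ((F.card : ℝ) * (4 * δ ^ 2 + 213626880 * R ^ 3 / δ ^ 3)) := by
          rw [Finset.sum_const, nsmul_eq_mul, ENNReal.ofReal_mul (p := (F.card : ℝ)) (by positivity),
            ENNReal.ofReal_natCast]
  rw [vol_Sq] at hvol
  have : ENNReal.ofReal ((F.card : ℝ) * (4 * δ ^ 2 + 213626880 * R ^ 3 / δ ^ 3)) < 1 := by
    rw [← ENNReal.ofReal_one]
    exact (ENNReal.ofReal_lt_ofReal_iff (by norm_num)).2 hsmall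
  exact absurd hvol (not_le.2 this)

/-- a good planar set -/
structure Fine (R δ : ℝ) (F : Finset (ℝ × ℝ)) : Prop where
  sq : ∀ u ∈ F, u ∈ Sq
  sep : ∀ a ∈ F, ∀ b ∈ F, a ≠ b → δ ≤ dist a b
  mid : ∀ u ∈ F, ∀ v ∈ F, ∀ w ∈ F, u ≠ v → v ≠ w → u ≠ w → ¬ Mid R u v w

theorem Sq_abs {u : ℝ × ℝ} (hu : u ∈ Sq) : |u.1| ≤ 1 ∧ |u.2| ≤ 1 := by
  obtain ⟨⟨a, b⟩, c, d⟩ := hu
  constructor <;> rw [abs_le] <;> constructor <;> linarith

theorem exists_fine {R δ : ℝ} (hR : 0 < R) (hδ : 4 * R ≤ δ) (n : ℕ)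
    (hsmall : (n : ℝ) * (4 * δ ^ 2 + 213626880 * R ^ 3 / δ ^ 3) < 1) :
    ∀ k ≤ n, ∃ F : Finset (ℝ × ℝ), F.card = k ∧ Fine R δ F := by
  classical
  have hδ0 : 0 < δ := by linarith
  intro k
  induction k with
  | zero =>
    intro _
    exact ⟨∅, rfl, ⟨by simp, by simp, by simp⟩⟩
  | succ k ih =>
    intro hk
    obtain ⟨F, hcard, hfine⟩ := ih (by omega)
    have hk' : (F.card : ℝ) ≤ n := by rw [hcard]; exact_mod_cast (by omega : k ≤ n)
    obtain ⟨z, hzSq, hzd, hzb⟩ := step hR hδ F hfine.sq hfine.sep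
      (lt_of_le_of_lt (by gcongr) hsmall)
    have hzF : z ∉ F := by
      intro h
      have := hzd z h
      rw [dist_self] at this
      linarith
    refine ⟨insert z F, by rw [Finset.card_insert_of_notMem hzF, hcard], ?_, ?_, ?_⟩
    · intro u hu
      rcases Finset.mem_insert.1 hu with rfl | h
      · exact hzSq
      · exact hfine.sq u h
    · intro a ha b hb hab
      rcases Finset.mem_insert.1 ha with ha' | ha' <;> rcases Finset.mem_insert.1 hb with hb' | hb'
      · rw [ha', hb'] at hab; exact absurd rfl hab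
      · rw [ha']; exact hzd b hb'
      · rw [hb', dist_comm]; exact hzd a ha'
      · exact hfine.sep a ha' b hb' hab
    · have hout : ∀ u ∈ F, ∀ v ∈ F, u ≠ v → ¬ Mid R u v z := by
        intro u hu v hv huv hm
        have habs := Sq_abs (hfine.sq v hv)
        have h1 := outer hR hδ hm habs.1 habs.2 (hfine.sep u hu v hv huv)
          (by rw [dist_comm]; exact hzd v hv)
        exact hzb u hu v hv huv h1.2 (Or.inl h1.1)
      have hmid : ∀ u ∈ F, ∀ w ∈ F, u ≠ w → ¬ Mid R u z w := by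
        intro u hu w hw huw hm
        have habs := Sq_abs hzSq
        have h1 := middle hR hδ hm habs.1 habs.2 (hzd u hu) (hzd w hw)
          (hfine.sep u hu w hw huw)
        rcases h1.1 with h2 | h2
        · exact hzb u hu w hw huw h1.2 (Or.inr h2)
        · refine hzb w hw u hu huw.symm (by rw [dist_comm]; exact h1.2) (Or.inr ?_)
          rw [dist_comm w u]; exact h2
      intro u hu v hv w hw huv hvw huw
      rcases Finset.mem_insert.1 hu with hu' | hu' <;>
        rcases Finset.mem_insert.1 hv with hv' | hv' <;>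
        rcases Finset.mem_insert.1 hw with hw' | hw'
      · exact absurd (hu'.trans hv'.symm) huv
      · exact absurd (hu'.trans hv'.symm) huv
      · exact absurd (hu'.trans hw'.symm) huw
      · rw [hu']
        intro hm
        exact hout w hw' v hv' hvw.symm hm.symm
      · exact absurd (hv'.trans hw'.symm) hvw
      · rw [hv']; exact hmid u hu' w hw' huw
      · rw [hw']; exact hout u hu' v hv' huv
      · exact hfine.mid u hu' v hv' w hw' huv hvw huw

/-! ### Back to space -/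

/-- the point of a small paraboloid over `u` -/
noncomputable def lift3 (u : ℝ × ℝ) : EuclideanSpace ℝ (Fin 3) := !₂[u.1 / 4, u.2 / 4, q u / 4]

theorem coord_le (x : EuclideanSpace ℝ (Fin 3)) (i : Fin 3) : |x i| ≤ ‖x‖ := by
  have := PiLp.norm_apply_le x i
  rwa [Real.norm_eq_abs] at this

theorem lift3_norm {u : ℝ × ℝ} (hu : u ∈ Sq) : ‖lift3 u‖ ≤ 3 / 4 := by
  obtain ⟨⟨a, b⟩, c, d⟩ := hu
  rw [EuclideanSpace.norm_eq, Fin.sum_univ_three]
  apply Real.sqrt_le_iff.2
  refine ⟨by norm_num, ?_⟩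
  have e0 : (lift3 u) 0 = u.1 / 4 := rfl
  have e1 : (lift3 u) 1 = u.2 / 4 := rfl
  have e2 : (lift3 u) 2 = q u / 4 := rfl
  rw [e0, e1, e2, Real.norm_eq_abs, Real.norm_eq_abs, Real.norm_eq_abs, sq_abs, sq_abs, sq_abs]
  have h1 : u.1 ^ 2 ≤ 1 := by nlinarith
  have h2 : u.2 ^ 2 ≤ 1 := by nlinarith
  have h3 : q u ≤ 2 := by unfold q; linarith
  have h4 : 0 ≤ q u := by unfold q; positivity
  nlinarith

theorem lift3_inj : Function.Injective lift3 := by
  intro u v h
  have e0 : (lift3 u) 0 = (lift3 v) 0 := by rw [h]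
  have e1 : (lift3 u) 1 = (lift3 v) 1 := by rw [h]
  have f0 : u.1 / 4 = v.1 / 4 := e0
  have f1 : u.2 / 4 = v.2 / 4 := e1
  exact Prod.ext (by linarith) (by linarith)

theorem mid_of_line {r t₁ t₂ t₃ : ℝ} {u v w : ℝ × ℝ} {p d : EuclideanSpace ℝ (Fin 3)}
    (h₁ : p + t₁ • d ∈ closedBall (lift3 u) r) (h₂ : p + t₂ • d ∈ closedBall (lift3 v) r)
    (h₃ : p + t₃ • d ∈ closedBall (lift3 w) r) (h12 : t₁ ≤ t₂) (h23 : t₂ ≤ t₃) :
    Mid (4 * r) u v w := by
  rw [mem_closedBall, dist_eq_norm] at h₁ h₂ h₃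
  obtain ⟨s, hs0, hs1, hs⟩ : ∃ s : ℝ, 0 ≤ s ∧ s ≤ 1 ∧ t₂ = (1 - s) * t₁ + s * t₃ := by
    rcases eq_or_lt_of_le (le_trans h12 h23) with h | h
    · exact ⟨0, le_refl _, by norm_num, by linarith⟩
    · refine ⟨(t₂ - t₁) / (t₃ - t₁), div_nonneg (by linarith) (by linarith),
        (div_le_one (by linarith)).2 (by linarith), ?_⟩
      have : t₃ - t₁ ≠ 0 := by linarith
      field_simp
      ring
  have key : ‖lift3 v - ((1 - s) • lift3 u + s • lift3 w)‖ ≤ 2 * r := by
    have e : lift3 v - ((1 - s) • lift3 u + s • lift3 w) =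
        -(p + t₂ • d - lift3 v) + (1 - s) • (p + t₁ • d - lift3 u) +
          s • (p + t₃ • d - lift3 w) := by
      rw [hs]; module
    rw [e]
    calc ‖-(p + t₂ • d - lift3 v) + (1 - s) • (p + t₁ • d - lift3 u) +
          s • (p + t₃ • d - lift3 w)‖
        ≤ ‖-(p + t₂ • d - lift3 v)‖ + ‖(1 - s) • (p + t₁ • d - lift3 u)‖ +
          ‖s • (p + t₃ • d - lift3 w)‖ := norm_add₃_le
      _ = ‖p + t₂ • d - lift3 v‖ + (1 - s) * ‖p + t₁ • d - lift3 u‖ +
          s * ‖p + t₃ • d - lift3 w‖ := by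
          rw [norm_neg, norm_smul, norm_smul, Real.norm_eq_abs, Real.norm_eq_abs,
            abs_of_nonneg hs0, abs_of_nonneg (by linarith : 0 ≤ 1 - s)]
      _ ≤ r + (1 - s) * r + s * r := by
          have : 0 ≤ 1 - s := by linarith
          gcongr
      _ = 2 * r := by ring
  have k0 := le_trans (coord_le _ 0) key
  have k1 := le_trans (coord_le _ 1) key
  have k2 := le_trans (coord_le _ 2) key
  have f0 : (lift3 v - ((1 - s) • lift3 u + s • lift3 w)) 0 =
      (v.1 - ((1 - s) * u.1 + s * w.1)) / 4 := by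
    show v.1 / 4 - ((1 - s) * (u.1 / 4) + s * (w.1 / 4)) = _
    ring
  have f1 : (lift3 v - ((1 - s) • lift3 u + s • lift3 w)) 1 =
      (v.2 - ((1 - s) * u.2 + s * w.2)) / 4 := by
    show v.2 / 4 - ((1 - s) * (u.2 / 4) + s * (w.2 / 4)) = _
    ring
  have f2 : (lift3 v - ((1 - s) • lift3 u + s • lift3 w)) 2 =
      (q v - ((1 - s) * q u + s * q w)) / 4 := by
    show q v / 4 - ((1 - s) * (q u / 4) + s * (q w / 4)) = _
    ring
  rw [f0, abs_div, abs_of_pos (by norm_num : (0:ℝ) < 4)] at k0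
  rw [f1, abs_div, abs_of_pos (by norm_num : (0:ℝ) < 4)] at k1
  rw [f2, abs_div, abs_of_pos (by norm_num : (0:ℝ) < 4)] at k2
  refine ⟨s, hs0, hs1, ?_, by linarith⟩
  have : ‖v - ((1 - s) • u + s • w)‖ =
      max |v.1 - ((1 - s) * u.1 + s * w.1)| |v.2 - ((1 - s) * u.2 + s * w.2)| := rfl
  rw [this]
  exact max_le (by linarith) (by linarith)

theorem good_of_fine {r δ : ℝ} {n : ℕ} (hr : 0 < r) (hr4 : r ≤ 1 / 4) (F : Finset (ℝ × ℝ))
    (hc : F.card = n) (hF : Fine (4 * r) δ F) : Good n r := by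
  classical
  have e := F.equivFinOfCardEq hc
  refine ⟨hr, fun i => lift3 (e.symm i), ?_, ?_, ?_⟩
  · intro i j h
    have := lift3_inj h
    exact e.symm.injective (Subtype.ext this)
  · intro i z hz
    rw [mem_closedBall, dist_zero_right]
    rw [mem_closedBall, dist_eq_norm] at hz
    have h1 := lift3_norm (hF.sq _ (e.symm i).2)
    calc ‖z‖ = ‖(z - lift3 (e.symm i)) + lift3 (e.symm i)‖ := by rw [sub_add_cancel]
      _ ≤ ‖z - lift3 (e.symm i)‖ + ‖lift3 (e.symm i)‖ := norm_add_le _ _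
      _ ≤ 1 := by linarith
  · intro p d _
    by_contra hcon
    push Not at hcon
    rw [Set.two_lt_ncard_iff] at hcon
    obtain ⟨i, j, k, ⟨t₁, h₁⟩, ⟨t₂, h₂⟩, ⟨t₃, h₃⟩, hij, hik, hjk⟩ := hcon
    have ne : ∀ a b : Fin n, a ≠ b → ((e.symm a : F) : ℝ × ℝ) ≠ e.symm b := by
      intro a b hab h
      exact hab (e.symm.injective (Subtype.ext h))
    have key : ∀ (a b c : Fin n) (s₁ s₂ s₃ : ℝ), a ≠ b → b ≠ c → a ≠ c →
        p + s₁ • d ∈ closedBall (lift3 (e.symm a)) r →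
        p + s₂ • d ∈ closedBall (lift3 (e.symm b)) r →
        p + s₃ • d ∈ closedBall (lift3 (e.symm c)) r → s₁ ≤ s₂ → s₂ ≤ s₃ → False := by
      intro a b c s₁ s₂ s₃ hab hbc hac ha hb hc' h12 h23
      exact hF.mid _ (e.symm a).2 _ (e.symm b).2 _ (e.symm c).2 (ne a b hab) (ne b c hbc)
        (ne a c hac) (mid_of_line ha hb hc' h12 h23)
    rcases le_total t₁ t₂ with h12 | h12 <;> rcases le_total t₂ t₃ with h23 | h23 <;>
      rcases le_total t₁ t₃ with h13 | h13
    · exact key i j k _ _ _ hij hjk hik h₁ h₂ h₃ h12 h23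
    · exact key i j k _ _ _ hij hjk hik h₁ h₂ h₃ h12 h23
    · exact key i k j _ _ _ hik hjk.symm hij h₁ h₃ h₂ h13 h23
    · exact key k i j _ _ _ hik.symm hij hjk.symm h₃ h₁ h₂ h13 h12
    · exact key j i k _ _ _ hij.symm hik hjk h₂ h₁ h₃ h12 h13
    · exact key j k i _ _ _ hjk hik.symm hij.symm h₂ h₃ h₁ h23 h13
    · exact key k j i _ _ _ hjk.symm hij.symm hik.symm h₃ h₂ h₁ h23 h12
    · exact key k j i _ _ _ hjk.symm hij.symm hik.symm h₃ h₂ h₁ h23 h12

/-! ### The upper bound -/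

/-- unit vectors -/
noncomputable def ax (i : Fin 3) : EuclideanSpace ℝ (Fin 3) := EuclideanSpace.single i 1

theorem coord_room {r : ℝ} {x : EuclideanSpace ℝ (Fin 3)} (hr : 0 < r)
    (h : closedBall x r ⊆ closedBall 0 1) (i : Fin 3) : |x i| + r ≤ 1 := by
  have h1 : x + r • ax i ∈ closedBall (0 : EuclideanSpace ℝ (Fin 3)) 1 := by
    apply h
    rw [mem_closedBall, dist_eq_norm, add_sub_cancel_left, norm_smul, Real.norm_eq_abs,
      abs_of_pos hr]
    unfold ax
    simp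
  have h2 : x - r • ax i ∈ closedBall (0 : EuclideanSpace ℝ (Fin 3)) 1 := by
    apply h
    rw [mem_closedBall, dist_eq_norm, sub_sub_cancel_left, norm_neg, norm_smul, Real.norm_eq_abs,
      abs_of_pos hr]
    unfold ax
    simp
  rw [mem_closedBall, dist_zero_right] at h1 h2
  have k1 := le_trans (coord_le _ i) h1
  have k2 := le_trans (coord_le _ i) h2
  have f1 : (x + r • ax i) i = x i + r := by simp [ax]
  have f2 : (x - r • ax i) i = x i - r := by simp [ax]
  rw [f1] at k1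
  rw [f2] at k2
  rw [abs_le] at k1 k2
  rcases abs_cases (x i) with ⟨h3, _⟩ | ⟨h3, _⟩ <;> rw [h3] <;> linarith

theorem good_upper {n : ℕ} {r : ℝ} (h : Good n r) : (n : ℝ) * r ^ 2 ≤ 8 := by
  classical
  obtain ⟨hr, x, _, hx, hline⟩ := h
  set S : Fin n → Set (ℝ × ℝ) := fun i => closedBall ((x i) 0, (x i) 1) (r / 2) with hS
  have hvol : ∀ i, volume (S i) = ENNReal.ofReal (r ^ 2) := by
    intro i
    rw [hS]
    simp only
    rw [vol_ball _ _ (by positivity)]
    congr 1; ring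
  have hsub : ∀ i, S i ⊆ closedBall (0 : ℝ × ℝ) 1 := by
    intro i z hz
    have h0 := coord_room hr (hx i) 0
    have h1 := coord_room hr (hx i) 1
    rw [hS] at hz
    simp only [mem_closedBall, Prod.dist_eq, Real.dist_eq, max_le_iff] at hz
    rw [mem_closedBall, Prod.dist_eq, Real.dist_eq, Real.dist_eq]
    apply max_le
    · have : |z.1 - (0 : ℝ × ℝ).1| ≤ |z.1 - (x i) 0| + |(x i) 0| := by
        have e : z.1 - (0 : ℝ × ℝ).1 = (z.1 - (x i) 0) + (x i) 0 := by simp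
        rw [e]; exact abs_add_le _ _
      linarith [hz.1]
    · have : |z.2 - (0 : ℝ × ℝ).2| ≤ |z.2 - (x i) 1| + |(x i) 1| := by
        have e : z.2 - (0 : ℝ × ℝ).2 = (z.2 - (x i) 1) + (x i) 1 := by simp
        rw [e]; exact abs_add_le _ _
      linarith [hz.2]
  have hmult : ∀ z : ℝ × ℝ, (Finset.univ.filter (fun i => z ∈ S i)).card ≤ 2 := by
    intro z
    have h1 := hline !₂[z.1, z.2, 0] (ax 2) (by
      intro h0
      have : (ax 2) 2 = (0 : EuclideanSpace ℝ (Fin 3)) 2 := by rw [h0]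
      simp [ax] at this)
    refine le_trans ?_ h1
    rw [← Set.ncard_coe_finset]
    apply Set.ncard_le_ncard _ (Set.toFinite _)
    intro i hi
    simp only [Finset.coe_filter, Finset.mem_univ, true_and, Set.mem_ofPred_eq] at hi
    rw [hS] at hi
    simp only [mem_closedBall, Prod.dist_eq, Real.dist_eq, max_le_iff] at hi
    refine ⟨(x i) 2, ?_⟩
    rw [mem_closedBall, dist_eq_norm, EuclideanSpace.norm_eq, Fin.sum_univ_three]
    apply Real.sqrt_le_iff.2
    refine ⟨hr.le, ?_⟩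
    have e0 : (!₂[z.1, z.2, 0] + (x i) 2 • ax 2 - x i) 0 = z.1 - (x i) 0 := by
      simp [ax]
    have e1 : (!₂[z.1, z.2, 0] + (x i) 2 • ax 2 - x i) 1 = z.2 - (x i) 1 := by
      simp [ax]
    have e2 : (!₂[z.1, z.2, 0] + (x i) 2 • ax 2 - x i) 2 = 0 := by
      simp [ax]
    rw [e0, e1, e2, Real.norm_eq_abs, Real.norm_eq_abs, Real.norm_eq_abs, sq_abs, sq_abs]
    have k0 := sq_le_sq' (abs_le.1 hi.1).1 (abs_le.1 hi.1).2
    have k1 := sq_le_sq' (abs_le.1 hi.2).1 (abs_le.1 hi.2).2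
    simp only [abs_zero]
    nlinarith [sq_nonneg r]
  have hmeas : ∀ i, MeasurableSet (S i) := fun i => isClosed_closedBall.measurableSet
  have hle : ∑ i : Fin n, volume (S i) ≤ 8 := by
    calc ∑ i : Fin n, volume (S i) = ∑ i : Fin n, ∫⁻ z, (S i).indicator (fun _ => (1 : ENNReal)) z := by
          apply Finset.sum_congr rfl
          intro i _
          rw [lintegral_indicator (hmeas i)]
          simp
      _ = ∫⁻ z, ∑ i : Fin n, (S i).indicator (fun _ => (1 : ENNReal)) z := by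
          rw [lintegral_finsetSum]
          intro i _
          exact measurable_const.indicator (hmeas i)
      _ ≤ ∫⁻ z, (closedBall (0 : ℝ × ℝ) 1).indicator (fun _ => (2 : ENNReal)) z := by
          apply lintegral_mono
          intro z
          by_cases hz : z ∈ closedBall (0 : ℝ × ℝ) 1
          · rw [Set.indicator_of_mem hz]
            simp only [Set.indicator_apply]
            rw [Finset.sum_boole]
            exact_mod_cast hmult z
          · rw [Set.indicator_of_notMem hz]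
            apply le_of_eq
            apply Finset.sum_eq_zero
            intro i _
            rw [Set.indicator_of_notMem]
            exact fun h => hz (hsub i h)
      _ = 8 := by
          rw [lintegral_indicator isClosed_closedBall.measurableSet]
          simp only [lintegral_const, Measure.restrict_apply, MeasurableSet.univ, univ_inter]
          rw [vol_ball _ _ (by norm_num)]
          norm_num
  simp only [hvol, Finset.sum_const, Finset.card_univ, Fintype.card_fin, nsmul_eq_mul] at hle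
  rw [← ENNReal.ofReal_natCast, ← ENNReal.ofReal_mul (by positivity)] at hle
  have h8 : (8 : ENNReal) = ENNReal.ofReal 8 := by norm_num
  rw [h8] at hle
  exact (ENNReal.ofReal_le_ofReal_iff (by norm_num)).1 hle

theorem good_upper' {n : ℕ} (hn : 1 ≤ n) {r : ℝ} (h : Good n r) :
    r ≤ 3 * (n : ℝ) ^ (-(1 / 2 : ℝ)) := by
  have hn0 : (0 : ℝ) < n := by exact_mod_cast hn
  have h1 := good_upper h
  have ha : 0 < (n : ℝ) ^ (-(1 / 2 : ℝ)) := Real.rpow_pos_of_pos hn0 _
  have ha2 : ((n : ℝ) ^ (-(1 / 2 : ℝ))) ^ 2 * n = 1 := by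
    rw [← Real.rpow_natCast, ← Real.rpow_mul hn0.le]
    norm_num
    rw [Real.rpow_neg_one, inv_mul_cancel₀ hn0.ne']
  set a := (n : ℝ) ^ (-(1 / 2 : ℝ))
  apply le_of_sq_le_sq _ (by positivity)
  have h2 : r ^ 2 * n ≤ 8 * (a ^ 2 * n) := by rw [ha2]; linarith
  have h3 : r ^ 2 ≤ 8 * a ^ 2 := by
    have : r ^ 2 * n ≤ (8 * a ^ 2) * n := by linarith
    exact le_of_mul_le_mul_right this hn0
  nlinarith [sq_nonneg a]

theorem good_lower {n : ℕ} (hn : 1 ≤ n) : Good n (1 / 16384 * (n : ℝ) ^ (-(5 / 6 : ℝ))) := by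
  have hn0 : (0 : ℝ) < n := by exact_mod_cast hn
  have hn1 : (1 : ℝ) ≤ n := by exact_mod_cast hn
  have ha : 0 < (n : ℝ) ^ (-(1 / 2 : ℝ)) := Real.rpow_pos_of_pos hn0 _
  have hb : 0 < (n : ℝ) ^ (-(1 / 3 : ℝ)) := Real.rpow_pos_of_pos hn0 _
  have ha1 : (n : ℝ) ^ (-(1 / 2 : ℝ)) ≤ 1 := Real.rpow_le_one_of_one_le_of_nonpos hn1 (by norm_num)
  have hb1 : (n : ℝ) ^ (-(1 / 3 : ℝ)) ≤ 1 := Real.rpow_le_one_of_one_le_of_nonpos hn1 (by norm_num)
  have hab : (n : ℝ) ^ (-(5 / 6 : ℝ)) = (n : ℝ) ^ (-(1 / 2 : ℝ)) * (n : ℝ) ^ (-(1 / 3 : ℝ)) := by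
    rw [← Real.rpow_add hn0]; norm_num
  have ha2 : (n : ℝ) * ((n : ℝ) ^ (-(1 / 2 : ℝ))) ^ 2 = 1 := by
    rw [← Real.rpow_natCast, ← Real.rpow_mul hn0.le]
    norm_num
    rw [Real.rpow_neg_one, mul_inv_cancel₀ hn0.ne']
  have hb3 : (n : ℝ) * ((n : ℝ) ^ (-(1 / 3 : ℝ))) ^ 3 = 1 := by
    rw [← Real.rpow_natCast, ← Real.rpow_mul hn0.le]
    norm_num
    rw [Real.rpow_neg_one, mul_inv_cancel₀ hn0.ne']
  rw [hab]
  set a := (n : ℝ) ^ (-(1 / 2 : ℝ))
  set b := (n : ℝ) ^ (-(1 / 3 : ℝ))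
  set r : ℝ := 1 / 16384 * (a * b) with hr
  have hr0 : 0 < r := by positivity
  have hab1 : a * b ≤ 1 := mul_le_one₀ ha1 hb.le hb1
  have hδ : 4 * (4 * r) ≤ a / 4 := by
    rw [hr]; nlinarith
  have hsmall : (n : ℝ) * (4 * (a / 4) ^ 2 + 213626880 * (4 * r) ^ 3 / (a / 4) ^ 3) < 1 := by
    have e : (n : ℝ) * (4 * (a / 4) ^ 2 + 213626880 * (4 * r) ^ 3 / (a / 4) ^ 3) =
        1 / 4 * ((n : ℝ) * a ^ 2) + 213626880 / 1073741824 * ((n : ℝ) * b ^ 3) := by
      rw [hr]; field_simp; ring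
    rw [e, ha2, hb3]; norm_num
  obtain ⟨F, hc, hF⟩ := exists_fine (by positivity : 0 < 4 * r) hδ n hsmall n le_rfl
  exact good_of_fine hr0 (by rw [hr]; linarith) F hc hF

/-- **Theorem.** `n ^ (-5/6) / 16384 ≤ rLine n ≤ 3 * n ^ (-1/2)` for all `n ≥ 1`. -/
theorem result (n : ℕ) (hn : 1 ≤ n) :
    1 / 16384 * (n : ℝ) ^ (-(5 / 6 : ℝ)) ≤ rLine n ∧ rLine n ≤ 3 * (n : ℝ) ^ (-(1 / 2 : ℝ)) := by
  constructor
  · exact le_csSup ⟨_, fun r hr => good_upper' hn hr⟩ (good_lower hn)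
  · exact csSup_le ⟨_, good_lower hn⟩ (fun r hr => good_upper' hn hr)

end Pool.Agent.Results.MP_9b7bf4_co.LineBallBounds
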